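import Mathlib

/-!
# Countably compact bases in locally pseudocompact spaces of weight at most the continuum (MP_ea20df_gt)

Every locally pseudocompact Tychonoff space of weight at most `𝔠` (in particular every separable one) is Telgarsky
countably compact, and every locally pseudocompact Tychonoff space of `π`-weight at most `𝔠` is Oxtoby countably compact.
-/

set_option autoImplicit false

open Set Topology Cardinal TopologicalSpace

namespace Pool.Agent.Results.MP_ea20df_gt.WeightContinuum

universe u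

/-- every continuous real function is bounded. -/
def Pseudocompact (X : Type u) [TopologicalSpace X] : Prop :=
  ∀ f : X → ℝ, Continuous f → ∃ C : ℝ, ∀ x, |f x| ≤ C

/-- every point has an open neighbourhood whose closure in `X` is pseudocompact. -/
def LocallyPseudocompact (X : Type u) [TopologicalSpace X] : Prop :=
  ∀ x : X, ∃ U : Set X, IsOpen U ∧ x ∈ U ∧ Pseudocompact (closure U)

/-- every decreasing sequence of members has nonempty intersection. -/
def CountablyCompactFamily {X : Type u} (F : Set (Set X)) : Prop :=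
  ∀ s : ℕ → Set X, (∀ n, s n ∈ F) → Antitone s → (⋂ n, s n).Nonempty

/-- every member has nonempty interior, and every nonempty open set contains a member. -/
def IsPseudobase {X : Type u} [TopologicalSpace X] (B : Set (Set X)) : Prop :=
  (∀ b ∈ B, (interior b).Nonempty) ∧ ∀ U : Set X, IsOpen U → U.Nonempty → ∃ b ∈ B, b ⊆ U

/-- there is a countably compact pseudobase consisting of open sets. -/
def OxtobyCountablyCompact (X : Type u) [TopologicalSpace X] : Prop :=
  ∃ B : Set (Set X), IsPseudobase B ∧ (∀ b ∈ B, IsOpen b) ∧ CountablyCompactFamily B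

/-- there is a countably compact base. -/
def TelgarskyCountablyCompact (X : Type u) [TopologicalSpace X] : Prop :=
  ∃ B : Set (Set X), IsTopologicalBasis B ∧ CountablyCompactFamily B

/-- the choice of the levels. -/
theorem exists_levels {X ι : Type u} [TopologicalSpace X] (hι : #ι ≤ 𝔠) (W : ι → ℝ → Set X)
    (hW : ∀ i r s, r < s → closure (W i r) ⊆ W i s) :
    ∃ c : ι → ℝ, (∀ i, c i ∈ Ioo (0 : ℝ) 1) ∧
      ∀ i j, i ≠ j → W i (c i) ⊆ W j (c j) → closure (W i (c i)) ⊆ W j (c j) := by
  classical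
  obtain ⟨r, wo, hr⟩ := Cardinal.exists_ord_eq ι
  have hcard : ∀ i, #{j // r j i} < 𝔠 := by
    intro i
    have h1 : #{j // r j i} < #ι := by
      have := Cardinal.card_typein_lt i hr
      simpa using this
    exact h1.trans_le hι
  have step : ∀ (i : ι) (g : ∀ j, r j i → ℝ), ∃ x ∈ Ioo (0 : ℝ) 1, ∀ (j : ι) (h : r j i),
      (W i x ⊆ W j (g j h) → closure (W i x) ⊆ W j (g j h)) ∧
      (W j (g j h) ⊆ W i x → closure (W j (g j h)) ⊆ W i x) := by
    intro i g
    by_contra hcon
    push Not at hcon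
    have h1 : ∀ x : Ioo (0 : ℝ) 1, ∃ p : {j // r j i} × Bool,
        (p.2 = true → W i x ⊆ W p.1 (g p.1 p.1.2) ∧ ¬ closure (W i x) ⊆ W p.1 (g p.1 p.1.2)) ∧
        (p.2 = false → W p.1 (g p.1 p.1.2) ⊆ W i x ∧ ¬ closure (W p.1 (g p.1 p.1.2)) ⊆ W i x) := by
      intro x
      obtain ⟨j, h, hj⟩ := hcon x.1 x.2
      by_cases hb : W i x ⊆ W j (g j h) → closure (W i x) ⊆ W j (g j h)
      · exact ⟨(⟨j, h⟩, false), by simp, fun _ => hj hb⟩
      · refine ⟨(⟨j, h⟩, true), fun _ => ?_, by simp⟩
        push Not at hb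
        exact hb
    choose p hp1 hp2 using h1
    have hinj : Function.Injective p := by
      intro x y hxy
      by_contra hne
      have hne' : (x : ℝ) ≠ y := fun h => hne (Subtype.ext h)
      have key : ∀ x y : Ioo (0 : ℝ) 1, p x = p y → (x : ℝ) < y → False := by
        intro x y hxy hlt
        rcases hb : (p x).2 with _ | _
        · have a1 := hp2 x hb
          have a2 := hp2 y (by rw [← hxy]; exact hb)
          rw [← hxy] at a2
          exact a2.2 ((closure_mono a1.1).trans (hW i x y hlt))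
        · have a1 := hp1 x hb
          have a2 := hp1 y (by rw [← hxy]; exact hb)
          rw [← hxy] at a2
          exact a1.2 ((hW i x y hlt).trans a2.1)
      rcases lt_or_gt_of_ne hne' with h | h
      · exact key x y hxy h
      · exact key y x hxy.symm h
    have h2 := Cardinal.mk_le_of_injective (f := fun x : ULift.{u} (Ioo (0 : ℝ) 1) => p x.down)
      (fun a b hab => ULift.ext _ _ (hinj hab))
    have h3 : #(ULift.{u} (Ioo (0 : ℝ) 1)) = 𝔠 := by
      rw [Cardinal.mk_uLift, Cardinal.mk_Ioo_real (by norm_num)]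
      simp
    have h4 : #({j // r j i} × Bool) < 𝔠 := by
      rw [Cardinal.mk_prod, Cardinal.lift_id', Cardinal.mk_bool]
      refine Cardinal.mul_lt_of_lt Cardinal.aleph0_le_continuum ?_ ?_
      · simpa using hcard i
      · simpa using Cardinal.nat_lt_continuum 2
    exact absurd (h3 ▸ h2) (not_le.mpr h4)
  choose F hF1 hF2 using step
  let c : ι → ℝ := IsWellFounded.fix r (fun i g => F i g)
  have hc : ∀ i, c i = F i (fun j _ => c j) := fun i => IsWellFounded.fix_eq r _ i
  refine ⟨c, fun i => by rw [hc i]; exact hF1 _ _, ?_⟩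
  intro i j hij
  rcases (Std.Trichotomous.rel_or_eq_or_rel_swap (r := r) (a := i) (b := j)) with h | h | h
  · have := (hF2 j (fun k _ => c k) i h).2
    rw [← hc j] at this
    exact this
  · exact absurd h hij
  · have := (hF2 i (fun k _ => c k) j h).1
    rw [← hc i] at this
    exact this

/-- decreasing sequences of open sets with a pseudocompact neighbourhood. -/
theorem inter_nonempty {X : Type u} [TopologicalSpace X] [T35Space X] (U : ℕ → Set X)
    (hU : Antitone U) (ho : ∀ n, IsOpen (U n)) (hne : ∀ n, (U n).Nonempty)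
    (hcl : ∀ n, ∃ m, closure (U m) ⊆ U n) (G : Set X) (hG : U 0 ⊆ G)
    (hps : Pseudocompact (closure G)) : (⋂ n, U n).Nonempty := by
  classical
  by_contra hemp
  rw [not_nonempty_iff_eq_empty] at hemp
  choose x hx using hne
  have h1 : ∀ n, ∃ f : X → ℝ, Continuous f ∧ (∀ y, 0 ≤ f y) ∧ f (x n) = n ∧ ∀ y, y ∉ U n → f y = 0 := by
    intro n
    obtain ⟨f, hf, hfx, hfK⟩ := CompletelyRegularSpace.completely_regular (x n) (U n)ᶜ
      (ho n).isClosed_compl (by simpa using hx n)
    refine ⟨fun y => (n : ℝ) * (1 - (f y : ℝ)), by fun_prop, fun y => ?_, ?_, fun y hy => ?_⟩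
    · have := (f y).2.2
      exact mul_nonneg (by positivity) (by linarith)
    · simp [hfx]
    · have := hfK (show y ∈ (U n)ᶜ from hy)
      simp [this]
  choose f hfc hf0 hfx hfU using h1
  have hlf : LocallyFinite fun n => Function.support (f n) := by
    intro y
    have : ∃ n, y ∉ U n := by
      by_contra hcon
      push Not at hcon
      have : y ∈ ⋂ n, U n := mem_iInter.mpr hcon
      rw [hemp] at this
      exact this
    obtain ⟨n, hn⟩ := this
    obtain ⟨m, hm⟩ := hcl n
    refine ⟨(closure (U m))ᶜ, isClosed_closure.isOpen_compl.mem_nhds (fun h => hn (hm h)), ?_⟩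
    refine (Set.finite_lt_nat m).subset ?_
    rintro k ⟨z, hz1, hz2⟩
    by_contra hk
    have hk' : m ≤ k := not_lt.mp hk
    have hzU : z ∈ U k := by
      by_contra h
      exact hz1 (hfU k z h)
    exact hz2 (subset_closure (hU hk' hzU))
  have hcont : Continuous fun y => ∑ᶠ n, f n y := continuous_finsum hfc hlf
  obtain ⟨C, hC⟩ := hps (fun y : closure G => ∑ᶠ n, f n y) (hcont.comp continuous_subtype_val)
  obtain ⟨n, hn⟩ := exists_nat_gt C
  have hxn : x n ∈ closure G := subset_closure (hG (hU (Nat.zero_le n) (hx n)))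
  have h2 := hC ⟨x n, hxn⟩
  have hfin : (Function.support fun k => f k (x n)).Finite := by
    have := hlf.point_finite (x n)
    refine this.subset ?_
    intro k hk
    exact hk
  have h3 : f n (x n) ≤ ∑ᶠ k, f k (x n) := single_le_finsum n hfin (fun k => hf0 k (x n))
  rw [hfx n] at h3
  have h4 := (abs_le.mp h2).2
  simp only at h4
  linarith

/-- the general construction. -/
theorem exists_family {X ι : Type u} [TopologicalSpace X] [T35Space X] (hι : #ι ≤ 𝔠) (f : ι → X → ℝ)
    (hf : ∀ i, Continuous (f i)) (hne : ∀ i, ∃ x, f i x ≤ 0)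
    (hG : ∀ i, ∃ G : Set X, {x | f i x < 1} ⊆ G ∧ Pseudocompact (closure G)) :
    ∃ c : ι → ℝ, (∀ i, c i ∈ Ioo (0 : ℝ) 1) ∧
      CountablyCompactFamily (range fun i => {x | f i x < c i}) := by
  classical
  obtain ⟨c, hc, hcc⟩ := exists_levels hι (fun i r => {x | f i x < r}) (by
    intro i r s hrs
    have : closure {x | f i x < r} ⊆ {x | f i x ≤ r} :=
      closure_minimal (fun x (hx : f i x < r) => (le_of_lt hx : f i x ≤ r)) (isClosed_le (hf i) continuous_const)
    exact this.trans (fun x hx => lt_of_le_of_lt hx hrs))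
  refine ⟨c, hc, ?_⟩
  intro s hs hanti
  choose i hi using hs
  have hopen : ∀ n, IsOpen (s n) := by
    intro n
    rw [← hi n]
    exact isOpen_lt (hf _) continuous_const
  have hnon : ∀ n, (s n).Nonempty := by
    intro n
    rw [← hi n]
    obtain ⟨x, hx⟩ := hne (i n)
    exact ⟨x, lt_of_le_of_lt hx (hc _).1⟩
  by_cases hev : ∃ N, ∀ n, N ≤ n → s n = s N
  · obtain ⟨N, hN⟩ := hev
    obtain ⟨x, hx⟩ := hnon N
    refine ⟨x, mem_iInter.mpr fun n => ?_⟩
    rcases le_total N n with h | h
    · rw [hN n h]; exact hx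
    · exact hanti h hx
  · push Not at hev
    obtain ⟨G, hG1, hG2⟩ := hG (i 0)
    refine inter_nonempty s hanti hopen hnon ?_ G ?_ hG2
    · intro N
      obtain ⟨n, hn, hne'⟩ := hev N
      refine ⟨n, ?_⟩
      have hij : i n ≠ i N := by
        intro h
        apply hne'
        rw [← hi n, ← hi N, h]
      have h1 := hcc (i n) (i N) hij
      have h2 : s n ⊆ s N := hanti hn
      rw [← hi n, ← hi N] at h2 ⊢
      exact h1 h2
    · rw [← hi 0]
      exact subset_trans (fun x hx => lt_trans hx (hc _).2) hG1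

/-- a base of cardinality at most the continuum. -/
theorem telgarsky {X : Type u} [TopologicalSpace X] [T35Space X] (hX : LocallyPseudocompact X)
    (B : Set (Set X)) (hB : IsTopologicalBasis B) (hc : #B ≤ 𝔠) : TelgarskyCountablyCompact X := by
  classical
  let P : B × B → (X → ℝ) → Prop := fun p g => Continuous g ∧ (∃ x, g x ≤ 0) ∧ (∀ x ∈ (p.1 : Set X), g x ≤ 0) ∧
    (∀ x, g x < 1 → x ∈ (p.2 : Set X)) ∧ ∃ G : Set X, {x | g x < 1} ⊆ G ∧ Pseudocompact (closure G)
  let ι := {p : B × B // ∃ g, P p g}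
  have hι : #ι ≤ 𝔠 := by
    refine (Cardinal.mk_subtype_le _).trans ?_
    rw [Cardinal.mk_prod]; simp only [Cardinal.lift_id]
    exact (mul_le_mul' hc hc).trans (Cardinal.mul_eq_self Cardinal.aleph0_le_continuum).le
  choose f hf using fun p : ι => p.2
  obtain ⟨c, hc1, hc2⟩ := exists_family hι f (fun i => (hf i).1) (fun i => (hf i).2.1)
    (fun i => (hf i).2.2.2.2)
  refine ⟨_, ?_, hc2⟩
  refine isTopologicalBasis_of_isOpen_of_nhds ?_ ?_
  · rintro _ ⟨i, rfl⟩
    exact isOpen_lt (hf i).1 continuous_const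
  · intro x O hx hO
    obtain ⟨G, hGo, hxG, hG⟩ := hX x
    obtain ⟨V, hVB, hxV, hVO⟩ := hB.exists_subset_of_mem_open (show x ∈ O ∩ G from ⟨hx, hxG⟩) (hO.inter hGo)
    obtain ⟨g, hg, hgx, hgK⟩ := CompletelyRegularSpace.completely_regular x Vᶜ
      (hB.isOpen hVB).isClosed_compl (by simpa using hxV)
    have hgc : Continuous fun y => (g y : ℝ) := by fun_prop
    have hgV : ∀ y, 2 * (g y : ℝ) - 1 < 1 → y ∈ V := by
      intro y hy
      by_contra hyV
      have := hgK (show y ∈ Vᶜ from hyV)
      rw [this] at hy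
      norm_num at hy
    obtain ⟨U, hUB, hxU, hU⟩ := hB.exists_subset_of_mem_open
      (show x ∈ {y | (g y : ℝ) < 1 / 2} by simp [hgx]) (isOpen_lt hgc continuous_const)
    have hP : P (⟨U, hUB⟩, ⟨V, hVB⟩) (fun y => 2 * (g y : ℝ) - 1) := by
      refine ⟨by fun_prop, ⟨x, by simp [hgx]⟩, fun y hy => ?_, hgV, G, fun y hy => (hVO (hgV y hy)).2, hG⟩
      have := hU hy
      simp only [mem_ofPred_eq] at this
      linarith
    let i : ι := ⟨(⟨U, hUB⟩, ⟨V, hVB⟩), _, hP⟩
    refine ⟨_, ⟨i, rfl⟩, ?_, ?_⟩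
    · exact lt_of_le_of_lt ((hf i).2.2.1 x hxU) (hc1 i).1
    · intro y hy
      exact (hVO ((hf i).2.2.2.1 y (lt_trans hy (hc1 i).2))).1

/-- a pseudobase of cardinality at most the continuum. -/
theorem oxtoby {X : Type u} [TopologicalSpace X] [T35Space X] (hX : LocallyPseudocompact X)
    (B : Set (Set X)) (hB : IsPseudobase B) (hc : #B ≤ 𝔠) : OxtobyCountablyCompact X := by
  classical
  have h1 : ∀ b : B, ∃ g : X → ℝ, Continuous g ∧ (∃ x, g x ≤ 0) ∧ (∀ x, g x < 1 → x ∈ (b : Set X)) ∧
      ∃ G : Set X, {x | g x < 1} ⊆ G ∧ Pseudocompact (closure G) := by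
    intro b
    obtain ⟨x, hx⟩ := hB.1 b b.2
    obtain ⟨G, hGo, hxG, hG⟩ := hX x
    obtain ⟨g, hg, hgx, hgK⟩ := CompletelyRegularSpace.completely_regular x (interior (b : Set X) ∩ G)ᶜ
      (isOpen_interior.inter hGo).isClosed_compl (by simpa using ⟨hx, hxG⟩)
    have hgV : ∀ y, (g y : ℝ) < 1 → y ∈ interior (b : Set X) ∩ G := by
      intro y hy
      by_contra hyV
      have := hgK (show y ∈ (interior (b : Set X) ∩ G)ᶜ from hyV)
      rw [this] at hy
      norm_num at hy
    exact ⟨fun y => (g y : ℝ), by fun_prop, ⟨x, by simp [hgx]⟩, fun y hy => interior_subset (hgV y hy).1,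
      G, fun y hy => (hgV y hy).2, hG⟩
  choose f hf using h1
  obtain ⟨c, hc1, hc2⟩ := exists_family hc f (fun i => (hf i).1) (fun i => (hf i).2.1)
    (fun i => (hf i).2.2.2)
  have hop : ∀ i, IsOpen {x | f i x < c i} := fun i => isOpen_lt (hf i).1 continuous_const
  refine ⟨_, ⟨?_, ?_⟩, ?_, hc2⟩
  · rintro _ ⟨i, rfl⟩
    rw [(hop i).interior_eq]
    obtain ⟨x, hx⟩ := (hf i).2.1
    exact ⟨x, lt_of_le_of_lt hx (hc1 i).1⟩
  · intro U hU hUn
    obtain ⟨b, hb, hbU⟩ := hB.2 U hU hUn
    refine ⟨_, ⟨⟨b, hb⟩, rfl⟩, ?_⟩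
    intro y hy
    exact hbU ((hf ⟨b, hb⟩).2.2.1 y (lt_trans hy (hc1 _).2))
  · rintro _ ⟨i, rfl⟩
    exact hop i

/-- separable regular spaces have weight at most the continuum. -/
theorem separable_base (X : Type u) [TopologicalSpace X] [T35Space X] [SeparableSpace X] :
    ∃ B : Set (Set X), IsTopologicalBasis B ∧ #B ≤ 𝔠 := by
  obtain ⟨D, hDc, hD⟩ := exists_countable_dense X
  refine ⟨range (fun A : Set D => interior (closure ((↑) '' A : Set X))), ?_, ?_⟩
  · refine isTopologicalBasis_of_isOpen_of_nhds ?_ ?_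
    · rintro _ ⟨A, rfl⟩
      exact isOpen_interior
    · intro x U hx hU
      obtain ⟨V, hxV, hV, hVU⟩ : ∃ V : Set X, x ∈ V ∧ IsOpen V ∧ closure V ⊆ U := by
        obtain ⟨K, hK, hKc, hKU⟩ := exists_mem_nhds_isClosed_subset (hU.mem_nhds hx)
        exact ⟨interior K, mem_interior_iff_mem_nhds.mpr hK, isOpen_interior,
          (closure_minimal interior_subset hKc).trans hKU⟩
      have hA : ((↑) '' {d : D | (d : X) ∈ V} : Set X) = V ∩ D := by
        ext y
        constructor
        · rintro ⟨d, hd, rfl⟩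
          exact ⟨hd, d.2⟩
        · rintro ⟨hy, hyD⟩
          exact ⟨⟨y, hyD⟩, hy, rfl⟩
      refine ⟨_, ⟨{d : D | (d : X) ∈ V}, rfl⟩, ?_, ?_⟩
      · simp only [hA]
        exact interior_maximal (hD.open_subset_closure_inter hV) hV hxV
      · simp only [hA]
        exact interior_subset.trans ((closure_mono inter_subset_left).trans hVU)
  · refine Cardinal.mk_range_le.trans ?_
    rw [Cardinal.mk_set, ← Cardinal.two_power_aleph0]
    have : #D ≤ ℵ₀ := Cardinal.mk_le_aleph0_iff.mpr hDc.to_subtype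
    exact Cardinal.power_le_power_left two_ne_zero this

/-- **Main result.** Let `X` be a locally pseudocompact Tychonoff space.
(1) If `X` has a base of cardinality at most the continuum, then `X` is Telgarsky countably compact.
(2) If `X` has a pseudobase of cardinality at most the continuum, then `X` is Oxtoby countably compact.
(By `separable_base`, (1) applies to every separable `X`.) -/
theorem result : ∀ (X : Type u) [TopologicalSpace X] [T35Space X], LocallyPseudocompact X →
    ((∃ B : Set (Set X), IsTopologicalBasis B ∧ #B ≤ 𝔠) → TelgarskyCountablyCompact X) ∧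
    ((∃ B : Set (Set X), IsPseudobase B ∧ #B ≤ 𝔠) → OxtobyCountablyCompact X) := by
  intro X _ _ hX
  exact ⟨fun ⟨B, hB, hc⟩ => telgarsky hX B hB hc, fun ⟨B, hB, hc⟩ => oxtoby hX B hB hc⟩

end Pool.Agent.Results.MP_ea20df_gt.WeightContinuum
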